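import Pool.Agent.H81.CC.PosProp

/-!
There is an absolute `δ > 0` such that for every finite set `I` of exponents there is a `C` such that, for infinitely many `n`,
at least `δ #I` of the intervals `[2 ^ i * n, 2 ^ i * n + C]` (`i ∈ I`) contain a prime.
-/

set_option autoImplicit false

open Finset

namespace Pool.Agent.H81.Old.PosPropSteps

theorem result : ∃ δ : ℝ, 0 < δ ∧ ∀ I : Finset ℕ, ∃ C : ℕ,
    {n : ℕ | δ * #I ≤ (#(I.filter fun i => ∃ p ∈ Icc (2 ^ i * n) (2 ^ i * n + C), p.Prime) : ℝ)}.Infinite :=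
  Pool.Agent.H81.CC.pos_prop

end Pool.Agent.H81.Old.PosPropSteps
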